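import Pool.Agent.Q211.SK.Card

/-!
# MP_06c979_gt: continuous images of Stäckel-compact spaces

First part (ZFC): every sequentially compact regular Hausdorff space of cardinality at most
`2 ^ 𝔠` is a continuous image of a Stäckel-compact (Tychonoff) space.
Second part: if every stationary subset of `{α < ω₂ : cf α = ω}` contains a closed copy of `ω₁`
(a consequence of Martin's Maximum), then some continuous image of a Stäckel-compact space is
Hausdorff (even completely normal) and not Stäckel-compact.
-/

namespace Pool.Agent.Results.MP_06c979_gt.SequentiallyCompactImages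

open Q211.SK Filter Topology Cardinal

theorem result :
    (∀ (Y : Type) [TopologicalSpace Y] [T3Space Y],
      (∀ x : ℕ → Y, ∃ a : Y, ∃ φ : ℕ → ℕ, StrictMono φ ∧ Tendsto (x ∘ φ) atTop (𝓝 a)) →
      #Y ≤ 2 ^ (𝔠 : Cardinal.{0}) →
      ∃ (X : Type) (_ : TopologicalSpace X) (f : X → Y), T35Space X ∧ Stackel X ∧ Continuous f ∧
        Function.Surjective f) ∧
    (Friedman → ∃ (X Y : Type 1) (_ : TopologicalSpace X) (_ : TopologicalSpace Y) (f : X → Y),
      Stackel X ∧ T5Space Y ∧ Continuous f ∧ Function.Surjective f ∧ ¬ Stackel Y) := by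
  refine ⟨fun Y _ _ h hc => ⟨CU Y, inferInstance, lm, inferInstance, stackel_CU h hc,
    continuous_lm, lm_surjective⟩, fun hF => ?_⟩
  obtain ⟨h1, h2, h3, h4⟩ := image_not_stackel hF
  exact ⟨CU E, E, inferInstance, inferInstance, lm, h1, t5_E, h2, h3, h4⟩

end Pool.Agent.Results.MP_06c979_gt.SequentiallyCompactImages
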